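import Mathlib
import Pool.Agent.Lib.helper8.Bnd

set_option autoImplicit false

namespace Pool.Agent.H.MP_cb399b_co

open Pool.Agent.Lib.helper8

def T : ℕ := 11094402551460701758181570366171988974755959814661355118508585331753264332216878452265270755686235927197462426384461089263459500032

def S (m : ℕ) : Set (Fin 9) := {i | m.testBit i.val = true}

def Bs (B : Set (Fin 9)) : Prop := ∃ m, m < 512 ∧ T.testBit m = true ∧ B = S m

theorem exch : allLt 512 (fun m => !T.testBit m || allLt 512 fun n => !T.testBit n ||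
    allLt 9 fun a => !m.testBit a || n.testBit a || anyLt 9 fun b =>
      n.testBit b && !m.testBit b && T.testBit ((m ^^^ 2 ^ a) ||| 2 ^ b)) = true := by
  decide +kernel

theorem nocommon : allLt 512 (fun m => !T.testBit m ||
    !(anyLt 512 fun n => T.testBit n && allLt 9 fun e => (m.testBit e || n.testBit e) == !(e == 0)) ||
    !(anyLt 512 fun n => T.testBit n && allLt 9 fun e => (m.testBit e || n.testBit e) == !(e == 6)))
    = true := by
  decide +kernel

theorem exchange : Matroid.ExchangeProperty Bs := by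
  rintro X Y ⟨m, hm, hm', rfl⟩ ⟨n, hn, hn', rfl⟩ a ⟨ha1, ha2⟩
  have h := exch
  simp only [allLt_iff, anyLt_iff, Bool.or_eq_true, Bool.and_eq_true, Bool.not_eq_true'] at h
  have ha1' : m.testBit a.val = true := ha1
  have ha2' : ¬ n.testBit a.val = true := ha2
  have h1 := ((h m hm).resolve_left (by simp [hm']) n hn).resolve_left (by simp [hn']) a.val a.isLt
  obtain ⟨b, hb, ⟨hb1, hb2⟩, hb3⟩ := h1.resolve_left (by simp [ha1', ha2'])
  refine ⟨⟨b, hb⟩, ⟨hb1, by simp [S, hb2]⟩, (m ^^^ 2 ^ a.val) ||| 2 ^ b, ?_, hb3, ?_⟩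
  · have p1 : 2 ^ a.val < 2 ^ 9 := Nat.pow_lt_pow_right (by norm_num) a.isLt
    have p2 : 2 ^ b < 2 ^ 9 := Nat.pow_lt_pow_right (by norm_num) hb
    exact Nat.or_lt_two_pow (n := 9) (Nat.xor_lt_two_pow (n := 9) hm p1) p2
  · ext i
    simp only [S, Set.mem_insert_iff, Set.mem_sdiff, Set.mem_ofPred_eq, Set.mem_singleton_iff,
      Nat.testBit_or, Nat.testBit_xor, Nat.testBit_two_pow, Fin.ext_iff]
    by_cases e1 : a.val = i.val
    · rw [← e1, ha1']
      simp [eq_comm]
    · have e1' : ¬ i.val = a.val := fun e => e1 e.symm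
      simp only [e1, e1', decide_false, Bool.xor_false, Bool.or_eq_true, decide_eq_true_eq,
        not_false_eq_true, and_true]
      rw [or_comm, eq_comm (a := b)]

def M : Matroid (Fin 9) := Matroid.ofIsBaseOfFinite (E := Set.univ) Set.finite_univ Bs
  ⟨S 78, 78, by norm_num, by decide +kernel, rfl⟩ exchange (fun _ _ => Set.subset_univ _)

theorem isBase_iff (B : Set (Fin 9)) : M.IsBase B ↔ Bs B := Iff.rfl

theorem ground : M.E = Set.univ := rfl

theorem base_S (m : ℕ) (h1 : m < 512) (h2 : T.testBit m = true) : M.IsBase (S m) := ⟨m, h1, h2, rfl⟩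

theorem rank : M.eRank = 4 := by
  rw [← (base_S 78 (by norm_num) (by decide +kernel)).encard_eq_eRank]
  have : S 78 = (({1, 2, 3, 6} : Finset (Fin 9)) : Set (Fin 9)) := by
    ext i; revert i; simp only [S, Set.mem_ofPred_eq, Finset.mem_coe]; decide
  rw [this, Set.encard_coe_eq_coe_finsetCard]
  rfl

theorem part (m n : ℕ) (x : Fin 9) (h1 : m < 512) (h2 : T.testBit m = true) (h3 : n < 512)
    (h4 : T.testBit n = true) (h5 : ∀ i : Fin 9, ¬ (m.testBit i.val = true ∧ n.testBit i.val = true))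
    (h6 : ∀ i : Fin 9, (m.testBit i.val = true ∨ n.testBit i.val = true) ↔ i ≠ x) :
    ∃ B : Fin 2 → Set (Fin 9), (∀ i, M.IsBase (B i)) ∧
      (∀ i j, i ≠ j → Disjoint (B i) (B j)) ∧ (⋃ i, B i) = M.E \ {x} := by
  have d : Disjoint (S m) (S n) := Set.disjoint_left.mpr fun i a b => h5 i ⟨a, b⟩
  refine ⟨![S m, S n], ?_, ?_, ?_⟩
  · intro i
    fin_cases i
    exacts [base_S m h1 h2, base_S n h3 h4]
  · intro i j hij
    fin_cases i <;> fin_cases j
    exacts [absurd rfl hij, d, d.symm, absurd rfl hij]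
  · ext i
    simp only [Set.mem_iUnion, Fin.exists_fin_two, ground, Set.mem_sdiff, Set.mem_univ, true_and,
      Set.mem_singleton_iff]
    exact h6 i

theorem other (P : Fin 2 → Set (Fin 9)) (x : Fin 9) (hP : ∀ i, M.IsBase (P i))
    (hU : (⋃ i, P i) = M.E \ {x}) (i : Fin 2) (m : ℕ) (hm : P i = S m) :
    (anyLt 512 fun n => T.testBit n &&
      allLt 9 fun e => (m.testBit e || n.testBit e) == !(e == x.val)) = true := by
  obtain ⟨n, h1, h2, h3⟩ := (isBase_iff _).mp (hP (i + 1))
  simp only [anyLt_iff, allLt_iff, Bool.and_eq_true]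
  refine ⟨n, h1, h2, fun e he => ?_⟩
  have hx := Set.ext_iff.mp hU ⟨e, he⟩
  have hu : (⋃ i, P i) = P i ∪ P (i + 1) := by
    ext z
    simp only [Set.mem_iUnion, Fin.exists_fin_two, Set.mem_union]
    fin_cases i
    · rfl
    · exact or_comm
  rw [hu, hm, h3] at hx
  simp only [S, Set.mem_union, Set.mem_ofPred_eq, ground, Set.mem_sdiff, Set.mem_univ, true_and,
    Set.mem_singleton_iff, Fin.ext_iff] at hx
  by_cases ee : e = x.val
  · have := hx.not.mpr (not_not.mpr ee)
    rw [not_or] at this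
    rw [← ee]
    simp [this.1, this.2]
  · rcases hx.mpr ee with h | h <;> simp [h, ee]

end Pool.Agent.H.MP_cb399b_co
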